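import Mathlib

/-!
# MP_c8df5e_gt: the `d`-reflection functor preserves arbitrary products of `T₀` spaces
-/

set_option autoImplicit false

open Set Topology TopologicalSpace

universe u v w

namespace Pool.Agent.Results.MP_c8df5e_gt.ArbitraryProducts

/-- the specialization order: `x ≤ y` iff `x ∈ closure {y}` -/
def sle {X : Type v} [TopologicalSpace X] (x y : X) : Prop := x ∈ closure ({y} : Set X)

/-- `s` is the supremum of `D` in the specialization order -/
def IsSup {X : Type v} [TopologicalSpace X] (D : Set X) (s : X) : Prop :=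
  (∀ d ∈ D, sle d s) ∧ ∀ t, (∀ d ∈ D, sle d t) → sle s t

/-- A `d`-space (monotone convergence space): a `T₀` space in which every (nonempty) directed set `D`
has a supremum `s` in the specialization order, and every open set that contains the supremum meets `D`. -/
def IsDSpace (X : Type v) [TopologicalSpace X] : Prop :=
  T0Space X ∧ ∀ D : Set X, D.Nonempty → DirectedOn sle D →
    (∃ s, IsSup D s) ∧ ∀ s, IsSup D s → ∀ U : Set X, IsOpen U → s ∈ U → (D ∩ U).Nonempty

/-- `(Y, μ)` is a `d`-reflection of `X` (universal property among all spaces of the universe `u`). -/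
def IsDReflection {X Y : Type u} [TopologicalSpace X] [TopologicalSpace Y] (μ : X → Y) : Prop :=
  IsDSpace Y ∧ Continuous μ ∧
    ∀ (Z : Type u) [TopologicalSpace Z], IsDSpace Z → ∀ f : X → Z, Continuous f →
      ∃! g : Y → Z, Continuous g ∧ g ∘ μ = f

section basics

variable {X : Type v} [TopologicalSpace X] {Y : Type w} [TopologicalSpace Y]

theorem sle_iff {x y : X} : sle x y ↔ ∀ U : Set X, IsOpen U → x ∈ U → y ∈ U := by
  unfold sle
  rw [mem_closure_iff]
  refine forall_congr' fun U => forall_congr' fun _ => forall_congr' fun _ => ?_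
  constructor
  · rintro ⟨z, hz, rfl⟩; exact hz
  · intro h; exact ⟨y, h, rfl⟩

theorem sle_iff_specializes {x y : X} : sle x y ↔ y ⤳ x := specializes_iff_mem_closure.symm

theorem sle_refl (x : X) : sle x x := subset_closure rfl

theorem sle_trans {x y z : X} (h1 : sle x y) (h2 : sle y z) : sle x z :=
  sle_iff.mpr fun U hU hx => sle_iff.mp h2 U hU (sle_iff.mp h1 U hU hx)

theorem sle_map {g : X → Y} (hg : Continuous g) {x y : X} (h : sle x y) : sle (g x) (g y) :=
  sle_iff.mpr fun U hU hx => sle_iff.mp h (g ⁻¹' U) (hU.preimage hg) hx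

theorem directed_map {g : X → Y} (hg : Continuous g) {D : Set X} (h : DirectedOn sle D) :
    DirectedOn sle (g '' D) := by
  rintro _ ⟨x, hx, rfl⟩ _ ⟨y, hy, rfl⟩
  obtain ⟨z, hz, h1, h2⟩ := h x hx y hy
  exact ⟨g z, ⟨z, hz, rfl⟩, sle_map hg h1, sle_map hg h2⟩

/-- `s` is an upper bound of `D` all of whose neighbourhoods meet `D` -/
def LS (D : Set X) (s : X) : Prop :=
  (∀ d ∈ D, sle d s) ∧ ∀ U : Set X, IsOpen U → s ∈ U → ∃ d ∈ D, d ∈ U

theorem LS.mem_iff {D : Set X} {s : X} (h : LS D s) {U : Set X} (hU : IsOpen U) :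
    s ∈ U ↔ ∃ d ∈ D, d ∈ U :=
  ⟨h.2 U hU, fun ⟨d, hd, hdU⟩ => sle_iff.mp (h.1 d hd) U hU hdU⟩

theorem LS.isSup {D : Set X} {s : X} (h : LS D s) : IsSup D s := by
  refine ⟨h.1, fun t ht => sle_iff.mpr fun U hU hs => ?_⟩
  obtain ⟨d, hd, hdU⟩ := h.2 U hU hs
  exact sle_iff.mp (ht d hd) U hU hdU

theorem eq_of_sle [T0Space X] {x y : X} (h1 : sle x y) (h2 : sle y x) : x = y := by
  apply Inseparable.eq
  rw [inseparable_iff_forall_isOpen]
  intro U hU
  exact ⟨sle_iff.mp h1 U hU, sle_iff.mp h2 U hU⟩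

theorem isDSpace_iff : IsDSpace X ↔ T0Space X ∧ ∀ D : Set X, D.Nonempty → DirectedOn sle D → ∃ s, LS D s := by
  constructor
  · rintro ⟨h0, h⟩
    refine ⟨h0, fun D hne hD => ?_⟩
    obtain ⟨⟨s, hs⟩, h2⟩ := h D hne hD
    refine ⟨s, hs.1, fun U hU hsU => ?_⟩
    obtain ⟨d, hd, hdU⟩ := h2 s hs U hU hsU
    exact ⟨d, hd, hdU⟩
  · rintro ⟨h0, h⟩
    refine ⟨h0, fun D hne hD => ?_⟩
    obtain ⟨s, hs⟩ := h D hne hD
    refine ⟨⟨s, hs.isSup⟩, fun t ht U hU htU => ?_⟩
    have : t = s := eq_of_sle (ht.2 s hs.1) (hs.isSup.2 t ht.1)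
    subst this
    obtain ⟨d, hd, hdU⟩ := hs.2 U hU htU
    exact ⟨d, hd, hdU⟩

theorem LS.map {g : X → Y} (hg : Continuous g) {D : Set X} {s : X} (h : LS D s) : LS (g '' D) (g s) := by
  refine ⟨?_, fun U hU hs => ?_⟩
  · rintro _ ⟨d, hd, rfl⟩
    exact sle_map hg (h.1 d hd)
  · obtain ⟨d, hd, hdU⟩ := h.2 (g ⁻¹' U) (hU.preimage hg) hs
    exact ⟨g d, ⟨d, hd, rfl⟩, hdU⟩

theorem LS.unique [T0Space X] {D : Set X} {s t : X} (h : LS D s) (h' : LS D t) : s = t :=
  eq_of_sle (h.isSup.2 t h'.1) (h'.isSup.2 s h.1)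

/-- closed under suprema of directed sets -/
def DClosed (B : Set X) : Prop :=
  ∀ D ⊆ B, D.Nonempty → DirectedOn sle D → ∀ s, LS D s → s ∈ B

/-- `d`-dense -/
def DDense (A : Set X) : Prop := ∀ B : Set X, DClosed B → A ⊆ B → ∀ y, y ∈ B

theorem DClosed.preimage {g : X → Y} (hg : Continuous g) {B : Set Y} (hB : DClosed B) : DClosed (g ⁻¹' B) := by
  intro D hD hne hdir s hs
  exact hB (g '' D) (image_subset_iff.mpr hD) (hne.image g) (directed_map hg hdir) (g s) (hs.map hg)

theorem DDense.exists_sle {A : Set X} (hA : DDense A) (y : X) : ∃ z ∈ A, sle z y := by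
  refine hA {y | ∃ z ∈ A, sle z y} ?_ (fun z hz => ⟨z, hz, sle_refl z⟩) y
  rintro D hD ⟨d, hd⟩ - s hs
  obtain ⟨z, hz, hzd⟩ := hD hd
  exact ⟨z, hz, sle_trans hzd (hs.1 d hd)⟩

/-- the `d`-closure -/
def dcl (A : Set X) : Set X := ⋂₀ {B | DClosed B ∧ A ⊆ B}

theorem dcl_closed (A : Set X) : DClosed (dcl A) := by
  intro D hD hne hdir s hs B hB
  exact hB.1 D (fun d hd => hD hd B hB) hne hdir s hs

theorem subset_dcl (A : Set X) : A ⊆ dcl A := fun _ ha _ hB => hB.2 ha

theorem LS_subtype {B : Set X} {D : Set B} {s : B} (h : LS (Subtype.val '' D) s.1) : LS D s := by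
  constructor
  · intro d hd
    rw [sle_iff_specializes]
    exact (IsInducing.subtypeVal.specializes_iff).mp (sle_iff_specializes.mp (h.1 d.1 ⟨d, hd, rfl⟩))
  · intro U hU hs
    obtain ⟨V, hV, rfl⟩ := isOpen_induced_iff.mp hU
    obtain ⟨_, ⟨d, hd, rfl⟩, hdV⟩ := h.2 V hV hs
    exact ⟨d, hd, hdV⟩

theorem sle_subtype {B : Set X} {x y : B} : sle x y ↔ sle x.1 y.1 := by
  rw [sle_iff_specializes, sle_iff_specializes, IsInducing.subtypeVal.specializes_iff]

theorem isDSpace_subtype (hX : IsDSpace X) {B : Set X} (hB : DClosed B) : IsDSpace B := by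
  rw [isDSpace_iff] at hX ⊢
  obtain ⟨h0, hX⟩ := hX
  refine ⟨inferInstance, fun D hne hdir => ?_⟩
  have hdir' := directed_map (continuous_subtype_val (p := fun x => x ∈ B)) hdir
  obtain ⟨s, hs⟩ := hX (Subtype.val '' D) (hne.image _) hdir'
  have hsB : s ∈ B := hB _ (by rintro _ ⟨d, -, rfl⟩; exact d.2) (hne.image _) hdir' s hs
  exact ⟨⟨s, hsB⟩, LS_subtype hs⟩

theorem dDense_dcl (A : Set X) : DDense ({y : dcl A | y.1 ∈ A}) := by
  intro B hB hAB y
  have h1 : DClosed (Subtype.val '' B : Set X) := by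
    intro D hD hne hdir s hs
    have hsd : s ∈ dcl A := by
      refine dcl_closed A D (fun d hd => ?_) hne hdir s hs
      obtain ⟨b, -, rfl⟩ := hD hd
      exact b.2
    have himg : Subtype.val '' (Subtype.val ⁻¹' D : Set (dcl A)) = D := by
      rw [Subtype.image_preimage_coe]
      ext d
      constructor
      · exact fun h => h.2
      · intro hd
        obtain ⟨b, -, rfl⟩ := hD hd
        exact ⟨b.2, hd⟩
    refine ⟨⟨s, hsd⟩, hB (Subtype.val ⁻¹' D) ?_ ?_ ?_ _ (LS_subtype (by rw [himg]; exact hs)), rfl⟩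
    · intro d hd
      obtain ⟨b, hb, hbd⟩ := hD hd
      rwa [Subtype.ext hbd] at hb
    · obtain ⟨d, hd⟩ := hne
      obtain ⟨b, -, rfl⟩ := hD hd
      exact ⟨b, hd⟩
    · intro x hx y hy
      obtain ⟨z, hz, h1, h2⟩ := hdir x.1 hx y.1 hy
      obtain ⟨b, -, rfl⟩ := hD hz
      exact ⟨b, hz, sle_subtype.mpr h1, sle_subtype.mpr h2⟩
  have h2 : y.1 ∈ (Subtype.val '' B : Set X) := by
    refine y.2 _ ⟨h1, fun a ha => ?_⟩
    exact ⟨⟨a, subset_dcl A ha⟩, hAB ha, rfl⟩
  obtain ⟨b, hb, hby⟩ := h2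
  rwa [Subtype.ext hby] at hb

end basics

section reflection

/-- a `d`-dense embedding into a `d`-space is a `d`-reflection -/
theorem isDReflection_of_dense {X Y : Type u} [TopologicalSpace X] [TopologicalSpace Y] {μ : X → Y}
    (hY : IsDSpace Y) (hμ : IsInducing μ) (hd : DDense (range μ)) : IsDReflection μ := by
  refine ⟨hY, hμ.continuous, fun Z _ hZ f hf => ?_⟩
  rw [isDSpace_iff] at hZ
  obtain ⟨h0, hZ⟩ := hZ
  let V : Set Z → Set Y := fun U => ⋃₀ {V | IsOpen V ∧ μ ⁻¹' V ⊆ f ⁻¹' U}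
  have hVo : ∀ U, IsOpen (V U) := fun U => isOpen_sUnion fun V hV => hV.1
  have hVx : ∀ U, IsOpen U → ∀ x, μ x ∈ V U ↔ f x ∈ U := by
    intro U hU x
    constructor
    · rintro ⟨W, hW, hxW⟩
      exact hW.2 hxW
    · intro hx
      obtain ⟨W, hW, hWU⟩ := hμ.isOpen_iff.mp (hU.preimage hf)
      refine ⟨W, ⟨hW, hWU.le⟩, ?_⟩
      have : x ∈ μ ⁻¹' W := by rw [hWU]; exact hx
      exact this
  have hall : ∀ y : Y, ∃ z : Z, ∀ U : Set Z, IsOpen U → (z ∈ U ↔ y ∈ V U) := by
    refine hd {y | ∃ z : Z, ∀ U : Set Z, IsOpen U → (z ∈ U ↔ y ∈ V U)} ?_ ?_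
    · intro D hD hne hdir s hs
      let E : Set Z := {z | ∃ d ∈ D, ∀ U : Set Z, IsOpen U → (z ∈ U ↔ d ∈ V U)}
      have hE : DirectedOn sle E := by
        rintro z ⟨d, hd, hz⟩ z' ⟨d', hd', hz'⟩
        obtain ⟨e, he, h1, h2⟩ := hdir d hd d' hd'
        obtain ⟨t, ht⟩ := hD he
        refine ⟨t, ⟨e, he, ht⟩, sle_iff.mpr fun U hU hzU => ?_, sle_iff.mpr fun U hU hzU => ?_⟩
        · exact (ht U hU).mpr (sle_iff.mp h1 _ (hVo U) ((hz U hU).mp hzU))
        · exact (ht U hU).mpr (sle_iff.mp h2 _ (hVo U) ((hz' U hU).mp hzU))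
      obtain ⟨d0, hd0⟩ := hne
      obtain ⟨z0, hz0⟩ := hD hd0
      obtain ⟨t, ht⟩ := hZ E ⟨z0, d0, hd0, hz0⟩ hE
      refine ⟨t, fun U hU => ?_⟩
      rw [ht.mem_iff hU, hs.mem_iff (hVo U)]
      constructor
      · rintro ⟨z, ⟨d, hd, hz⟩, hzU⟩
        exact ⟨d, hd, (hz U hU).mp hzU⟩
      · rintro ⟨d, hd, hdU⟩
        obtain ⟨z, hz⟩ := hD hd
        exact ⟨z, ⟨d, hd, hz⟩, (hz U hU).mpr hdU⟩
    · rintro _ ⟨x, rfl⟩
      exact ⟨f x, fun U hU => (hVx U hU x).symm⟩
  choose g hg using hall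
  have hgc : Continuous g := by
    rw [continuous_def]
    intro U hU
    have : g ⁻¹' U = V U := by ext y; exact hg y U hU
    rw [this]
    exact hVo U
  have hgf : g ∘ μ = f := by
    funext x
    apply Inseparable.eq
    rw [inseparable_iff_forall_isOpen]
    intro U hU
    exact (hg (μ x) U hU).trans (hVx U hU x)
  refine ⟨g, ⟨hgc, hgf⟩, ?_⟩
  rintro g' ⟨hgc', hgf'⟩
  funext y
  refine hd {y | g' y = g y} ?_ ?_ y
  · intro D hD hne hdir s hs
    have himg : g' '' D = g '' D := image_congr fun d hd => hD hd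
    have h1 := hs.map hgc'
    rw [himg] at h1
    exact h1.unique (hs.map hgc)
  · rintro _ ⟨x, rfl⟩
    exact (congrFun hgf' x).trans (congrFun hgf x).symm

theorem IsDReflection.homeo {X Y P : Type u} [TopologicalSpace X] [TopologicalSpace Y] [TopologicalSpace P]
    {μ : X → Y} {ν : X → P} (h1 : IsDReflection μ) (h2 : IsDReflection ν) :
    ∃ h : Y ≃ₜ P, h ∘ μ = ν := by
  obtain ⟨a, ⟨ha, haμ⟩, -⟩ := h1.2.2 P h2.1 ν h2.2.1
  obtain ⟨b, ⟨hb, hbν⟩, -⟩ := h2.2.2 Y h1.1 μ h1.2.1
  obtain ⟨i, -, hi⟩ := h1.2.2 Y h1.1 μ h1.2.1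
  obtain ⟨j, -, hj⟩ := h2.2.2 P h2.1 ν h2.2.1
  have hba : b ∘ a = id := by
    rw [hi (b ∘ a) ⟨hb.comp ha, by rw [Function.comp_assoc, haμ, hbν]⟩, hi id ⟨continuous_id, rfl⟩]
  have hab : a ∘ b = id := by
    rw [hj (a ∘ b) ⟨ha.comp hb, by rw [Function.comp_assoc, hbν, haμ]⟩, hj id ⟨continuous_id, rfl⟩]
  exact ⟨⟨⟨a, b, congrFun hba, congrFun hab⟩, ha, hb⟩, haμ⟩

end reflection

section products

variable {I : Type v} {Y : I → Type w} [∀ i, TopologicalSpace (Y i)]

theorem sle_pi {x y : ∀ i, Y i} : sle x y ↔ ∀ i, sle (x i) (y i) := by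
  simp only [sle_iff_specializes, specializes_pi]

theorem LS_pi {D : Set (∀ i, Y i)} {s : ∀ i, Y i} (hne : D.Nonempty) (hD : DirectedOn sle D)
    (h : ∀ i, LS ((fun x => x i) '' D) (s i)) : LS D s := by
  classical
  constructor
  · intro d hd
    exact sle_pi.mpr fun i => (h i).1 _ ⟨d, hd, rfl⟩
  · intro U hU hs
    obtain ⟨F, u, hu, huU⟩ := isOpen_pi_iff.mp hU s hs
    have key : ∀ G : Finset I, G ⊆ F → ∃ d ∈ D, ∀ i ∈ G, d i ∈ u i := by
      intro G
      induction G using Finset.induction_on with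
      | empty =>
        intro _
        obtain ⟨d, hd⟩ := hne
        exact ⟨d, hd, by simp⟩
      | insert a G ha ih =>
        intro hGF
        obtain ⟨d, hd, hdG⟩ := ih ((Finset.subset_insert a G).trans hGF)
        have haF : a ∈ F := hGF (Finset.mem_insert_self a G)
        obtain ⟨_, ⟨e, he, rfl⟩, hea⟩ := (h a).2 (u a) (hu a haF).1 (hu a haF).2
        obtain ⟨f, hf, hdf, hef⟩ := hD d hd e he
        refine ⟨f, hf, fun i hi => ?_⟩
        rcases Finset.mem_insert.mp hi with rfl | hi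
        · exact sle_iff.mp (sle_pi.mp hef i) _ (hu i haF).1 hea
        · exact sle_iff.mp (sle_pi.mp hdf i) _ (hu i (hGF (Finset.mem_insert_of_mem hi))).1 (hdG i hi)
    obtain ⟨d, hd, hdF⟩ := key F (Finset.Subset.refl F)
    exact ⟨d, hd, huU fun i hi => hdF i hi⟩

theorem isDSpace_pi (h : ∀ i, IsDSpace (Y i)) : IsDSpace (∀ i, Y i) := by
  simp only [isDSpace_iff] at h ⊢
  haveI : ∀ i, T0Space (Y i) := fun i => (h i).1
  refine ⟨inferInstance, fun D hne hdir => ?_⟩
  choose s hs using fun i => (h i).2 ((fun x => x i) '' D) (hne.image _) (directed_map (continuous_apply i) hdir)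
  exact ⟨s, LS_pi hne hdir hs⟩

/-- products of `d`-dense sets are `d`-dense -/
theorem dDense_pi {A : ∀ i, Set (Y i)} (hA : ∀ i, DDense (A i)) : DDense (Set.pi univ A) := by
  classical
  intro B hB hAB
  let H : Set (Set I) := {J | ∀ y : ∀ i, Y i, (∀ i, i ∉ J → y i ∈ A i) → y ∈ B}
  have hzorn : ∀ c ⊆ H, IsChain (· ⊆ ·) c → ∃ ub ∈ H, ∀ s ∈ c, s ⊆ ub := by
    intro c hc hchain
    rcases c.eq_empty_or_nonempty with rfl | hne
    · exact ⟨∅, fun y hy => hAB fun i _ => hy i (notMem_empty i), by simp⟩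
    refine ⟨⋃₀ c, ?_, fun s hs => subset_sUnion_of_mem hs⟩
    intro y hy
    choose z hzA hzy using fun i => (hA i).exists_sle (y i)
    let p : Set I → ∀ i, Y i := fun J i => if i ∈ J ∨ i ∉ ⋃₀ c then y i else z i
    have hpB : ∀ J ∈ c, p J ∈ B := by
      intro J hJ
      refine hc hJ (p J) fun i hi => ?_
      by_cases hic : i ∈ ⋃₀ c
      · simp only [p, hi, hic, not_true_eq_false, or_self, if_false]
        exact hzA i
      · simp only [p, hic, not_false_eq_true, or_true, if_true]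
        exact hy i hic
    have hmono : ∀ J J' : Set I, J ⊆ J' → sle (p J) (p J') := by
      intro J J' hJJ
      refine sle_pi.mpr fun i => ?_
      by_cases h1 : i ∈ J ∨ i ∉ ⋃₀ c
      · have h2 : i ∈ J' ∨ i ∉ ⋃₀ c := h1.imp (fun h => hJJ h) id
        simp only [p, if_pos h1, if_pos h2]
        exact sle_refl _
      · simp only [p, if_neg h1]
        split_ifs
        · exact hzy i
        · exact sle_refl _
    have hdir : DirectedOn sle (p '' c) := by
      rintro _ ⟨J, hJ, rfl⟩ _ ⟨J', hJ', rfl⟩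
      rcases hchain.total hJ hJ' with h | h
      · exact ⟨p J', ⟨J', hJ', rfl⟩, hmono _ _ h, sle_refl _⟩
      · exact ⟨p J, ⟨J, hJ, rfl⟩, sle_refl _, hmono _ _ h⟩
    refine hB (p '' c) (by rintro _ ⟨J, hJ, rfl⟩; exact hpB J hJ) (hne.image p) hdir y ?_
    refine LS_pi (hne.image p) hdir fun i => ⟨?_, fun U hU hyU => ?_⟩
    · rintro _ ⟨_, ⟨J, hJ, rfl⟩, rfl⟩
      simp only [p]
      split_ifs
      · exact sle_refl _
      · exact hzy i
    · by_cases hic : i ∈ ⋃₀ c
      · obtain ⟨J, hJ, hiJ⟩ := hic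
        refine ⟨_, ⟨_, ⟨J, hJ, rfl⟩, rfl⟩, ?_⟩
        simpa only [p, hiJ, true_or, if_true] using hyU
      · obtain ⟨J, hJ⟩ := hne
        refine ⟨_, ⟨_, ⟨J, hJ, rfl⟩, rfl⟩, ?_⟩
        simpa only [p, hic, not_false_eq_true, or_true, if_true] using hyU
  obtain ⟨J, hJ⟩ := zorn_subset H hzorn
  have hJuniv : ∀ i, i ∈ J := by
    intro i
    by_contra hi
    have hJi : insert i J ∈ H := by
      intro y hy
      have h1 : DClosed {t : Y i | Function.update y i t ∈ B} :=
        hB.preimage (g := fun t : Y i => Function.update y i t) (by fun_prop)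
      have h2 : A i ⊆ {t : Y i | Function.update y i t ∈ B} := by
        intro t ht
        refine hJ.prop (Function.update y i t) fun k hk => ?_
        by_cases hki : k = i
        · subst hki
          simpa using ht
        · rw [Function.update_of_ne hki]
          exact hy k (by simp [hki, hk])
      have h3 := hA i _ h1 h2 (y i)
      simpa using h3
    exact hi (hJ.le_of_ge hJi (subset_insert i J) (mem_insert i J))
  intro y
  exact hJ.prop y fun i hi => absurd (hJuniv i) hi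

end products

theorem univ_of_false_mem {U : Set Prop} (hU : IsOpen U) (h : False ∈ U) : U = univ := by
  have : U ∈ 𝓝 False := hU.mem_nhds h
  rw [nhds_false] at this
  exact Filter.mem_top.mp this

theorem isDSpace_Prop : IsDSpace Prop := by
  rw [isDSpace_iff]
  refine ⟨inferInstance, fun D hne _ => ?_⟩
  by_cases h : True ∈ D
  · refine ⟨True, fun d _ => ?_, fun U _ hs => ⟨True, h, hs⟩⟩
    rw [sle_iff]
    intro U hU hdU
    by_cases hd : d
    · have : d = True := by simp [hd]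
      rwa [← this]
    · have : d = False := by simp [hd]
      rw [univ_of_false_mem hU (this ▸ hdU)]
      trivial
  · have hF : ∀ d ∈ D, d = False := by
      intro d hd
      by_contra hne
      have : d = True := by
        by_cases hd' : d
        · simp [hd']
        · exact absurd (by simp [hd']) hne
      exact h (this ▸ hd)
    obtain ⟨d, hd⟩ := hne
    refine ⟨False, fun d hd => ?_, fun U hU hs => ⟨d, hd, ?_⟩⟩
    · rw [hF d hd]; exact sle_refl _
    · rw [hF d hd]; exact hs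

/-- every `T₀` space has a `d`-reflection, given by a `d`-dense embedding -/
theorem exists_reflection (X : Type u) [TopologicalSpace X] [T0Space X] :
    ∃ (Y : Type u) (_ : TopologicalSpace Y) (μ : X → Y), IsDSpace Y ∧ IsInducing μ ∧ DDense (range μ) := by
  let W := Opens X → Prop
  have hW : IsDSpace W := isDSpace_pi fun _ => isDSpace_Prop
  let e : X → W := productOfMemOpens X
  have he : IsInducing e := productOfMemOpens_isInducing X
  let Y := dcl (range e)
  refine ⟨Y, inferInstance, fun x => ⟨e x, subset_dcl _ ⟨x, rfl⟩⟩, isDSpace_subtype hW (dcl_closed _), ?_, ?_⟩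
  · refine IsInducing.of_comp (g := Subtype.val) ?_ continuous_subtype_val he
    exact he.continuous.subtype_mk _
  · have : range (fun x => (⟨e x, subset_dcl _ ⟨x, rfl⟩⟩ : Y)) = {y : dcl (range e) | y.1 ∈ range e} := by
      ext y
      constructor
      · rintro ⟨x, rfl⟩
        exact ⟨x, rfl⟩
      · rintro ⟨x, hx⟩
        exact ⟨x, Subtype.ext hx⟩
    rw [this]
    exact dDense_dcl _

theorem IsDReflection.dense {X Y : Type u} [TopologicalSpace X] [TopologicalSpace Y] [T0Space X] {μ : X → Y}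
    (h : IsDReflection μ) : IsInducing μ ∧ DDense (range μ) := by
  obtain ⟨Y', _, μ', hY', hμ', hd⟩ := exists_reflection X
  obtain ⟨g, hg⟩ := (isDReflection_of_dense hY' hμ' hd).homeo h
  subst hg
  refine ⟨g.isInducing.comp hμ', ?_⟩
  intro B hB hBr y
  have h1 := hd (g ⁻¹' B) (hB.preimage g.continuous) (by
    rintro _ ⟨x, rfl⟩
    exact hBr ⟨x, rfl⟩) (g.symm y)
  simpa using h1

/-- every `T₀` space has a `d`-reflection (so the theorem below is about all families of `T₀` spaces) -/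
theorem exists_dReflection (X : Type u) [TopologicalSpace X] [T0Space X] :
    ∃ (Y : Type u) (_ : TopologicalSpace Y) (μ : X → Y), IsDReflection μ := by
  obtain ⟨Y, tY, μ, hY, hμ, hd⟩ := exists_reflection X
  exact ⟨Y, tY, μ, isDReflection_of_dense hY hμ hd⟩

/-- **The `d`-reflection functor preserves arbitrary products of `T₀` spaces.**

For every family of `T₀` spaces `X i` and `d`-reflections `μ i : X i → Y i`, the product map
`∏ X i → ∏ Y i` is a `d`-reflection of the product space `∏ X i`; hence for every `d`-reflection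
`ν : ∏ X i → P` of the product there is a homeomorphism `P ≃ₜ ∏ Y i` (compatible with the reflection maps). -/
theorem result (I : Type u) (X Y : I → Type u) [∀ i, TopologicalSpace (X i)] [∀ i, T0Space (X i)]
    [∀ i, TopologicalSpace (Y i)] (μ : ∀ i, X i → Y i) (hμ : ∀ i, IsDReflection (μ i)) :
    IsDReflection (fun (x : ∀ i, X i) (i : I) => μ i (x i)) ∧
      ∀ (P : Type u) [TopologicalSpace P] (ν : (∀ i, X i) → P), IsDReflection ν →
        ∃ h : P ≃ₜ (∀ i, Y i), h ∘ ν = fun (x : ∀ i, X i) (i : I) => μ i (x i) := by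
  have h1 : IsDReflection (fun (x : ∀ i, X i) (i : I) => μ i (x i)) := by
    refine isDReflection_of_dense (isDSpace_pi fun i => (hμ i).1) ?_ ?_
    · exact IsInducing.piMap fun i => (hμ i).dense.1
    · have : range (fun (x : ∀ i, X i) (i : I) => μ i (x i)) = Set.pi univ fun i => range (μ i) :=
        range_piMap μ
      rw [this]
      exact dDense_pi fun i => (hμ i).dense.2
  exact ⟨h1, fun P _ ν hν => hν.homeo h1⟩

end Pool.Agent.Results.MP_c8df5e_gt.ArbitraryProducts
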